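import Pool.Agent.helper48.AN.SpecF

namespace AN

open scoped Classical
open Pool.Agent.helper53.AU

noncomputable section

section places

variable {k F : Type} [Field k] [IsAlgClosed k] [Field F] [Algebra k F]

omit [IsAlgClosed k] in
theorem FH2_div {P : Place k F} {n : ℤ} {x z : F} (hx : P.Ge n x) (hz : z ≠ 0) :
    P.Ge (n - P.ord z) (x / z) := by
  rcases hx with rfl | hx
  · left; simp
  · by_cases h0 : x = 0
    · left; simp [h0]
    · right
      rw [P.ord_div h0 hz]
      omega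

/-- strong approximation with poles -/
theorem FH2_sa (hFF : IsFF k F) (P₀ : Place k F) (S : Finset (Place k F)) (hS : P₀ ∉ S)
    (a : Place k F → F) : ∃ r : F, (∀ P ∈ S, P.Ge 0 (r - a P)) ∧
      ∀ P : Place k F, P ≠ P₀ → P ∉ S → P.Ge 0 r := by
  obtain ⟨M, hM⟩ : ∃ M : ℕ, M = ∑ P ∈ S, (P.ord (a P)).natAbs := ⟨_, rfl⟩
  have hMP : ∀ P ∈ S, P.Ge (-(M : ℤ)) (a P) := by
    intro P hP
    right
    have h1 : (P.ord (a P)).natAbs ≤ M := by
      rw [hM]
      exact Finset.single_le_sum (f := fun P : Place k F => (P.ord (a P)).natAbs)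
        (fun _ _ => Nat.zero_le _) hP
    omega
  obtain ⟨C, hC⟩ := aQR5 k F hFF P₀
  obtain ⟨z', hz'R, hz'0, hz'o⟩ := hC (C + 1) (by omega)
  have hc : ∀ P : Place k F, ∃ c : k, P ≠ P₀ → P.Ge 1 (z' - algebraMap k F c) := by
    intro P
    by_cases h : P = P₀
    · exact ⟨0, fun h' => absurd h h'⟩
    · obtain ⟨c, hc⟩ := aQV1 k F hFF P z' (hz'R P h)
      exact ⟨c, fun _ => hc⟩
  choose c hc using hc
  have hne : ∀ c : k, z' - algebraMap k F c ≠ 0 := by
    intro c h
    rw [sub_eq_zero] at h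
    by_cases h0 : c = 0
    · rw [h0, map_zero] at h
      exact hz'0 h
    · have h1 := P₀.ord_const c h0
      rw [← h, hz'o] at h1
      push_cast at h1
      omega
  obtain ⟨z, hz⟩ : ∃ z : F, z = ∏ P ∈ S, (z' - algebraMap k F (c P)) ^ M := ⟨_, rfl⟩
  have hfac : ∀ P : Place k F, (z' - algebraMap k F (c P)) ^ M ∈ Reg P₀ := fun P =>
    (Reg P₀).pow_mem ((Reg P₀).sub_mem hz'R ((Reg P₀).algebraMap_mem _)) _
  have hzR : z ∈ Reg P₀ := by
    rw [hz]
    exact Subalgebra.prod_mem _ fun P _ => hfac P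
  have hz0 : z ≠ 0 := by
    rw [hz]
    exact Finset.prod_ne_zero_iff.mpr fun P _ => pow_ne_zero _ (hne _)
  have hzP : ∀ P ∈ S, P.Ge (M : ℤ) z := by
    intro P hP
    have hPP : P ≠ P₀ := fun h => hS (h ▸ hP)
    rw [hz, ← Finset.mul_prod_erase _ _ hP]
    have h1 := (hc P hPP).pow M
    have h2 : P.Ge 0 (∏ Q ∈ S.erase P, (z' - algebraMap k F (c Q)) ^ M) :=
      (Subalgebra.prod_mem (Reg P₀) fun Q _ => hfac Q : _ ∈ Reg P₀) P hPP
    have h3 := h1.mul h2
    exact h3.mono (by omega)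
  have hfin := aQV4 k F hFF z hz0
  let T : Finset (Place k F) := (hfin.toFinset).erase P₀
  have hT : ∀ P : Place k F, P ≠ P₀ → P ∉ T → P.ord z = 0 := by
    intro P hP hPT
    by_contra h
    exact hPT (Finset.mem_erase.mpr ⟨hP, hfin.mem_toFinset.mpr h⟩)
  let S' := S ∪ T
  have hS' : P₀ ∉ S' := by
    intro h
    rcases Finset.mem_union.mp h with h | h
    · exact hS h
    · exact (Finset.mem_erase.mp h).1 rfl
  obtain ⟨N, hN⟩ : ∃ N : ℕ, N = ∑ P ∈ S', (P.ord z).natAbs := ⟨_, rfl⟩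
  have hNP : ∀ P ∈ S', P.ord z ≤ N := by
    intro P hP
    have h1 : (P.ord z).natAbs ≤ N := by
      rw [hN]
      exact Finset.single_le_sum (f := fun P : Place k F => (P.ord z).natAbs)
        (fun _ _ => Nat.zero_le _) hP
    omega
  obtain ⟨f, hfR, hf⟩ := aQR4 k F hFF P₀ S' N (fun P => if P ∈ S then z * a P else 0) hS' (by
    intro P _
    show P.Ge 0 (if P ∈ S then z * a P else 0)
    split_ifs with h
    · have := (hzP P h).mul (hMP P h)
      exact this.mono (by omega)
    · exact P.ge_zero _)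
  refine ⟨f / z, ?_, ?_⟩
  · intro P hP
    have hP' : P ∈ S' := Finset.mem_union_left _ hP
    have h1 : P.Ge N (f - (if P ∈ S then z * a P else 0)) := hf P hP'
    rw [if_pos hP] at h1
    have h2 : f / z - a P = (f - z * a P) / z := by field_simp
    rw [h2]
    have h3 := FH2_div h1 hz0
    have h4 := hNP P hP'
    exact h3.mono (by omega)
  · intro P hP hPS
    by_cases hPT : P ∈ T
    · have hP' : P ∈ S' := Finset.mem_union_right _ hPT
      have h1 : P.Ge N (f - (if P ∈ S then z * a P else 0)) := hf P hP'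
      rw [if_neg hPS, sub_zero] at h1
      have h3 := FH2_div h1 hz0
      have h4 := hNP P hP'
      exact h3.mono (by omega)
    · have h3 := FH2_div (hfR P hP) hz0
      rw [hT P hP hPT] at h3
      exact h3.mono (by omega)

omit [IsAlgClosed k] in
theorem FH2_Dpow (p : ℕ) [CharP F p] (D : Derivation k F F) (r : F) : D (r ^ p) = 0 := by
  rw [D.leibniz_pow, nsmul_eq_mul, CharP.cast_eq_zero, zero_mul]

theorem FH2_local (p : ℕ) [Fact p.Prime] [CharP k p] [CharP F p] (hFF : IsFF k F)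
    (D : Derivation k F F) (hD : D ≠ 0) (P : Place k F) (n : ℕ) :
    ∀ h : F, P.Ge (-(n : ℤ)) h → P.Ge (P.ord (D P.unif)) (D h) → ∃ r : F, P.Ge 0 (h - r ^ p) := by
  have hp : p.Prime := Fact.out
  induction n with
  | zero =>
    intro h h1 _
    exact ⟨0, by rw [zero_pow hp.ne_zero, sub_zero]; simpa using h1⟩
  | succ n ih =>
    intro h h1 h2
    by_cases h3 : P.Ge (-(n : ℤ)) h
    · exact ih h h3 h2
    · have h0 : h ≠ 0 := fun h' => h3 (Or.inl h')
      have ho : P.ord h = -((n + 1 : ℕ) : ℤ) := by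
        have h4 := h1.le h0
        have h5 : ¬ (-(n : ℤ) ≤ P.ord h) := fun h' => h3 (Or.inr h')
        push_cast at h4 ⊢
        omega
      obtain ⟨ht0, ht1, -, hQ⟩ := aQK5 k F hFF D hD P P.unif P.unif_spec
      have hdvd : p ∣ n + 1 := by
        by_contra hnd
        have h6 : ((P.ord h : ℤ) : k) ≠ 0 := by
          rw [ho]
          push_cast
          rw [neg_ne_zero]
          intro h7
          apply hnd
          rw [← CharP.cast_eq_zero_iff k p]
          push_cast
          exact h7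
        obtain ⟨h7, h8⟩ := hQ h h0 h6
        have h9 := h2.le h7
        rw [h8, ho] at h9
        push_cast at h9
        omega
      obtain ⟨m, hm⟩ := hdvd
      have ht := P.unif_spec
      obtain ⟨t, htt⟩ : ∃ t, t = P.unif := ⟨_, rfl⟩
      rw [← htt] at ht h2
      have htn : t ^ (n + 1) ≠ 0 := pow_ne_zero _ ht.1
      have hot : P.ord (t ^ (n + 1)) = ((n + 1 : ℕ) : ℤ) := by
        rw [P.ord_pow ht.1, ht.2, mul_one]
      have h6 : P.Ge 0 (h * t ^ (n + 1)) := by
        right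
        rw [P.ord_mul _ _ h0 htn, hot, ho]
        omega
      obtain ⟨c, hc⟩ := aQV1 k F hFF P _ h6
      obtain ⟨b, hb⟩ := IsAlgClosed.exists_pow_nat_eq c hp.pos
      let q : F := algebraMap k F b / t ^ m
      have hq : q ^ p = algebraMap k F c / t ^ (n + 1) := by
        show (algebraMap k F b / t ^ m) ^ p = _
        rw [div_pow, ← map_pow, hb, ← pow_mul, hm, mul_comm m p]
      have h7 : P.Ge (-(n : ℤ)) (h - q ^ p) := by
        have h8 : h - q ^ p = (h * t ^ (n + 1) - algebraMap k F c) / t ^ (n + 1) := by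
          rw [hq]; field_simp
        rw [h8]
        have h9 := FH2_div hc htn
        rw [hot] at h9
        exact h9.mono (by push_cast; omega)
      have h8 : D (h - q ^ p) = D h := by
        rw [map_sub, FH2_Dpow p D q, sub_zero]
      obtain ⟨r, hr⟩ := ih (h - q ^ p) h7 (by rw [h8, ← htt]; exact h2)
      refine ⟨q + r, ?_⟩
      rw [add_pow_char]
      rw [show h - (q ^ p + r ^ p) = h - q ^ p - r ^ p by ring]
      exact hr

theorem FH2_reg (p : ℕ) [Fact p.Prime] [CharP k p] [CharP F p] (hFF : IsFF k F)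
    (D : Derivation k F F) (hD : D ≠ 0) (P₀ : Place k F) (h : F)
    (hreg : ∀ P : Place k F, P.Ge (P.ord (D P.unif)) (D h)) : ∃ r : F, h - r ^ p ∈ Reg P₀ := by
  by_cases h0 : h = 0
  · refine ⟨0, ?_⟩
    have hp : p.Prime := Fact.out
    rw [h0, zero_pow hp.ne_zero, sub_zero]
    exact (Reg P₀).zero_mem
  have hfin := aQV4 k F hFF h h0
  have hloc : ∀ P : Place k F, ∃ r : F, P.Ge 0 (h - r ^ p) := fun P =>
    FH2_local p hFF D hD P (P.ord h).natAbs h (Or.inr (by omega)) (hreg P)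
  choose a ha using hloc
  let S : Finset (Place k F) := (hfin.toFinset).erase P₀
  have hS : ∀ P : Place k F, P ≠ P₀ → P ∉ S → P.ord h = 0 := by
    intro P hP hPS
    by_contra hc
    exact hPS (Finset.mem_erase.mpr ⟨hP, hfin.mem_toFinset.mpr hc⟩)
  obtain ⟨r, hr1, hr2⟩ := FH2_sa hFF P₀ S (Finset.notMem_erase _ _) a
  refine ⟨r, fun P hP => ?_⟩
  by_cases hPS : P ∈ S
  · have h1 : h - r ^ p = (h - a P ^ p) - (r - a P) ^ p := by
      rw [sub_pow_char]; ring
    rw [h1]
    refine (ha P).sub ?_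
    have := (hr1 P hPS).pow p
    simpa using this
  · refine Place.Ge.sub (Or.inr (hS P hP hPS).ge) ?_
    have := (hr2 P hP hPS).pow p
    simpa using this

end places

/-! ### Laurent series -/

theorem FH2_charLS (p : ℕ) (k : Type) [Field k] [CharP k p] : CharP (LS k) p :=
  charP_of_injective_ringHom (f := (LS.C : k →+* LS k)) HahnSeries.C_injective p

theorem FH2_mono_sum {R : Type} [CommRing R] {ι : Type} (n : ℤ) (s : Finset ι) (f : ι → R) :
    mono n (∑ i ∈ s, f i) = ∑ i ∈ s, mono n (f i) := by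
  induction s using Finset.induction_on with
  | empty => rw [Finset.sum_empty, Finset.sum_empty, mono_zero]
  | insert a s ha ih => rw [Finset.sum_insert ha, Finset.sum_insert ha, mono_add, ih]

theorem FH2_mono_C {R : Type} [CommRing R] (n : ℤ) (c : R) : mono n c = LS.C c * mono n 1 := by
  rw [C_eq_mono, mono_mul_mono, zero_add, mul_one]

/-- a series with regular derivative is a `p`-th power plus a power series -/
theorem FH2_pth (p : ℕ) [hp : Fact p.Prime] (k : Type) [Field k] [IsAlgClosed k] [CharP k p]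
    (x : LS k) (hx : dd x ∈ PS k) : ∃ y : LS k, ∃ b ∈ PS k, x = y ^ p + b := by
  have hrt : ∀ c : k, ∃ b : k, b ^ p = c := fun c => IsAlgClosed.exists_pow_nat_eq c hp.out.pos
  choose rt hrt using hrt
  have hrt0 : rt 0 = 0 := pow_eq_zero_iff (hp.out.ne_zero) |>.mp (hrt 0)
  obtain ⟨N, hN⟩ := exists_lb_nat x
  have hp1 : (1 : ℤ) ≤ p := by exact_mod_cast hp.out.one_le
  let y : LS k := ofFun (fun n => if n < 0 then rt (cf x (p * n)) else 0) (-(N : ℤ)) (by
    intro n hn
    rw [if_pos (by omega), hN (p * n) (by nlinarith), hrt0])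
  have hy : ∀ n, cf y n = if n < 0 then rt (cf x (p * n)) else 0 := fun n => rfl
  refine ⟨y, x - y ^ p, ?_, by ring⟩
  intro n hn
  rw [cf_sub, cf_pow_char p y n]
  by_cases hd : (p : ℤ) ∣ n
  · rw [if_pos hd]
    obtain ⟨m, rfl⟩ := hd
    have hm : m < 0 := by
      by_contra h
      have : 0 ≤ (p : ℤ) * m := by
        apply mul_nonneg <;> omega
      omega
    rw [Int.mul_ediv_cancel_left _ (by omega), hy, if_pos hm, hrt, sub_self]
  · rw [if_neg hd, sub_zero]
    have h1 := hx (n - 1) (by omega)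
    rw [cf_dd, sub_add_cancel] at h1
    rcases mul_eq_zero.mp h1 with h | h
    · exact absurd ((CharP.intCast_eq_zero_iff k p n).mp h) hd
    · exact h

theorem FH2_ord {k F : Type} [Field k] [Field F] [Algebra k F] (P₀ : Place k F)
    (ι : F →+* LS k) (hι : Lau P₀ ι) (d : ℤ) (u : LS k) (hu : u ∈ GE k (-d)) (hu0 : cf u (-d) ≠ 0)
    (w : F) : P₀.Ge d w ↔ u * ι w ∈ PS k := by
  by_cases h0 : w = 0
  · subst h0
    simp only [map_zero, mul_zero]
    exact ⟨fun _ => Submodule.zero_mem _, fun _ => Or.inl rfl⟩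
  · constructor
    · intro h
      have h1 := h.le h0
      exact GE_mono (by omega) (GE_mul hu (hι.mem w h0))
    · intro h
      right
      by_contra hlt
      have h1 := cf_mul_lead hu (hι.mem w h0)
      have h2 := h (-d + P₀.ord w) (by omega)
      rw [h1] at h2
      rcases mul_eq_zero.mp h2 with h3 | h3
      · exact hu0 h3
      · exact hι.ne w h0 h3

theorem FH2 (hKA : KA_stmt) (hKB : KB_stmt) (hKE : KE_stmt) (hCE : CE_stmt) (hFB : FB_stmt)
    (hFK : FK_stmt) : FH2_stmt := by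
  intro p hp k F _ _ _ _ _ hFF P₀ ι hι g γ a hK hA
  have hcF : CharP F p := charP_of_injective_algebraMap (algebraMap k F).injective p
  have hcL : CharP (LS k) p := FH2_charLS p k
  obtain ⟨D, hD⟩ := QK1 k F hFF
  obtain ⟨e, he1, he2⟩ := hFK k F hFF D hD
  obtain ⟨u, hu, hu0, hFBu⟩ := hFB k F hFF P₀ ι hι D hD
  obtain ⟨ka1, ka2, -⟩ := hKA k g γ a hK
  obtain ⟨-, kb1, kb2, kb3, -, -, -, -⟩ := hKB k g γ a hK
  have hιinj : Function.Injective ι := ι.injective
  let E : Fin g → LS k := fun j => (mono (-(γ j : ℤ)) (1 : k)) ^ p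
  have hddE : ∀ v : Fin g → k, dd (∑ j, LS.C (v j) * E j) = 0 := by
    intro v
    rw [map_sum]
    refine Finset.sum_eq_zero fun j _ => ?_
    rw [dd_mul, dd_C, zero_mul, zero_add, dd_pow_char p _ p dvd_rfl, mul_zero]
  -- constants
  have hconst : ∀ f ∈ Reg P₀, ι f ∈ PS k → D f = 0 := by
    intro f hf hfPS
    obtain ⟨c, hc⟩ := kb2 (ι f) ((hA _).mpr ⟨f, hf, rfl⟩) hfPS
    have h1 : f = algebraMap k F c := hιinj (by rw [hc, hι.const])
    rw [h1, D.map_algebraMap]
  -- the graph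
  let G : Submodule k ((Fin g → k) × F) :=
    { carrier := {x | ∃ f ∈ Reg P₀, ∃ o ∈ PS k, ∑ j, LS.C (x.1 j) * E j = ι f + o ∧ x.2 = D f}
      zero_mem' := ⟨0, (Reg P₀).zero_mem, 0, Submodule.zero_mem _, by simp, by simp⟩
      add_mem' := by
        rintro x y ⟨f, hf, o, ho, h1, h2⟩ ⟨f', hf', o', ho', h1', h2'⟩
        refine ⟨f + f', (Reg P₀).add_mem hf hf', o + o', Submodule.add_mem _ ho ho', ?_, ?_⟩
        · have h3 : ∑ j, LS.C ((x + y).1 j) * E j =
              ∑ j, LS.C (x.1 j) * E j + ∑ j, LS.C (y.1 j) * E j := by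
            rw [← Finset.sum_add_distrib]
            refine Finset.sum_congr rfl fun j _ => ?_
            rw [Prod.fst_add, Pi.add_apply, map_add, add_mul]
          rw [h3, h1, h1', map_add]; ring
        · rw [Prod.snd_add, h2, h2', map_add]
      smul_mem' := by
        rintro c x ⟨f, hf, o, ho, h1, h2⟩
        refine ⟨c • f, (Reg P₀).smul_mem hf c, c • o, Submodule.smul_mem _ _ ho, ?_, ?_⟩
        · have h3 : ∑ j, LS.C ((c • x).1 j) * E j = LS.C c * ∑ j, LS.C (x.1 j) * E j := by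
            rw [Finset.mul_sum]
            refine Finset.sum_congr rfl fun j _ => ?_
            rw [Prod.smul_fst, Pi.smul_apply, smul_eq_mul, map_mul, mul_assoc]
          rw [h3, h1, Algebra.smul_def, map_mul, hι.const, ← C_mul]; ring
        · rw [Prod.smul_snd, h2, D.map_smul] }
  have hGmem : ∀ x : (Fin g → k) × F, x ∈ G ↔ ∃ f ∈ Reg P₀, ∃ o ∈ PS k,
      ∑ j, LS.C (x.1 j) * E j = ι f + o ∧ x.2 = D f := fun x => Iff.rfl
  -- KE
  have hke := hKE p k g γ a hK
  choose α hα o ho hke using hke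
  have hexp : ∀ v : Fin g → k, ∑ j, LS.C (v j) * E j =
      (∑ j, LS.C (v j) * α j) + ∑ i, mono (-(γ i : ℤ)) (((HW p γ a).mulVec v) i) +
        ∑ j, LS.C (v j) * o j := by
    intro v
    have h1 : ∑ i, mono (-(γ i : ℤ)) (((HW p γ a).mulVec v) i) =
        ∑ j, LS.C (v j) * ∑ i, mono (-(γ i : ℤ)) (HW p γ a i j) := by
      have h2 : ∀ i, mono (-(γ i : ℤ)) (((HW p γ a).mulVec v) i) =
          ∑ j, LS.C (v j) * mono (-(γ i : ℤ)) (HW p γ a i j) := by
        intro i
        show mono (-(γ i : ℤ)) (∑ j, HW p γ a i j * v j) = _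
        rw [FH2_mono_sum]
        refine Finset.sum_congr rfl fun j _ => ?_
        rw [C_mul, smul_mono, mul_comm]
      rw [Finset.sum_congr rfl fun i _ => h2 i, Finset.sum_comm]
      refine Finset.sum_congr rfl fun j _ => ?_
      rw [Finset.mul_sum]
    rw [h1, ← Finset.sum_add_distrib, ← Finset.sum_add_distrib]
    refine Finset.sum_congr rfl fun j _ => ?_
    show LS.C (v j) * (mono (-(γ j : ℤ)) (1 : k)) ^ p = _
    rw [hke j]; ring
  have hαsum : ∀ v : Fin g → k, ∑ j, LS.C (v j) * α j ∈ AA γ a := fun v =>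
    Submodule.sum_mem _ fun j _ => by rw [C_mul]; exact Submodule.smul_mem _ _ (hα j)
  have hosum : ∀ v : Fin g → k, ∑ j, LS.C (v j) * o j ∈ PS k := fun v =>
    Submodule.sum_mem _ fun j _ => by rw [C_mul]; exact Submodule.smul_mem _ _ (ho j)
  -- splitting off the constant term
  have hsplit : ∀ z ∈ PS k, ∃ c : k, z - LS.C c ∈ GE k 1 := by
    intro z hz
    refine ⟨cf z 0, fun n hn => ?_⟩
    rw [cf_sub, cf_C]
    by_cases h : n = 0
    · subst h; rw [if_pos rfl, sub_self]
    · rw [if_neg h, sub_zero]; exact hz n (by omega)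
  -- first projection
  have hfst : ∀ x ∈ G, (HW p γ a).mulVec x.1 = 0 := by
    intro x hx
    obtain ⟨f, hf, o', ho', h1, -⟩ := (hGmem x).mp hx
    rw [hexp x.1] at h1
    obtain ⟨c, hc⟩ := hsplit (∑ j, LS.C (x.1 j) * o j - o') (Submodule.sub_mem _ (hosum _) ho')
    have h2 := ka2 (∑ j, LS.C (x.1 j) * α j - ι f + LS.C c)
      (Submodule.add_mem _ (Submodule.sub_mem _ (hαsum _) ((hA _).mpr ⟨f, hf, rfl⟩)) (kb1 c))
      ((HW p γ a).mulVec x.1) (∑ j, LS.C (x.1 j) * o j - o' - LS.C c) hc (by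
        have h3 := sub_eq_zero.mpr h1
        rw [← h3]; ring)
    exact h2.2.1
  have hfst' : ∀ v : Fin g → k, (HW p γ a).mulVec v = 0 → ∃ w : F, (v, w) ∈ G := by
    intro v hv
    obtain ⟨f, hf, hff⟩ := (hA _).mp (hαsum v)
    refine ⟨D f, f, hf, ∑ j, LS.C (v j) * o j, hosum v, ?_, rfl⟩
    show ∑ j, LS.C (v j) * E j = _
    rw [hexp v, hv, ← hff]
    simp [mono_zero]
  -- second projection
  let W : Submodule k F :=
    { carrier := {w | (∀ P : Place k F, P.Ge (P.ord (D P.unif)) w) ∧ ∃ h : F, w = D h}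
      zero_mem' := ⟨fun P => P.ge_zero _, 0, by simp⟩
      add_mem' := by
        rintro x y ⟨h1, h, rfl⟩ ⟨h1', h', rfl⟩
        exact ⟨fun P => (h1 P).add (h1' P), h + h', by rw [map_add]⟩
      smul_mem' := by
        rintro c x ⟨h1, h, rfl⟩
        exact ⟨fun P => (h1 P).smul c, c • h, by rw [D.map_smul]⟩ }
  have hWmem : ∀ w : F, w ∈ W ↔ (∀ P : Place k F, P.Ge (P.ord (D P.unif)) w) ∧ ∃ h : F, w = D h :=
    fun w => Iff.rfl
  have hsnd : ∀ x ∈ G, x.2 ∈ W := by
    intro x hx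
    obtain ⟨f, hf, o', ho', h1, h2⟩ := (hGmem x).mp hx
    rw [h2, hWmem]
    refine ⟨fun P => ?_, f, rfl⟩
    by_cases hP : P = P₀
    · subst hP
      rw [FH2_ord P ι hι _ u hu hu0, ← hFBu f]
      have h3 := congrArg dd h1
      rw [hddE, map_add] at h3
      rw [eq_neg_of_add_eq_zero_left h3.symm]
      exact Submodule.neg_mem _ (dd_mem_PS ho')
    · obtain ⟨c, hc⟩ := aQV1 k F hFF P f (hf P hP)
      obtain ⟨-, -, h4, -⟩ := aQK5 k F hFF D hD P P.unif P.unif_spec
      have h5 := h4 1 _ hc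
      rw [map_sub, D.map_algebraMap, sub_zero] at h5
      exact h5.mono (by omega)
  have hsnd' : ∀ w ∈ W, ∃ v : Fin g → k, (v, w) ∈ G := by
    intro w hw
    obtain ⟨hw1, h, rfl⟩ := (hWmem w).mp hw
    obtain ⟨r, hr⟩ := FH2_reg p hFF D hD P₀ h hw1
    have hDf : D (h - r ^ p) = D h := by rw [map_sub, FH2_Dpow p D r, sub_zero]
    have h1 : dd (ι (h - r ^ p)) ∈ PS k := by
      rw [hFBu, hDf]
      exact (FH2_ord P₀ ι hι _ u hu hu0 _).mp (hw1 P₀)
    obtain ⟨y, b, hb, hyb⟩ := FH2_pth p k _ h1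
    obtain ⟨α', hα', c, o', ho', hy⟩ := ka1 y
    obtain ⟨f₁, hf₁, hff₁⟩ := (hA _).mp hα'
    have hyp : y ^ p = ι (f₁ ^ p) + ∑ j, LS.C (c j ^ p) * E j + o' ^ p := by
      rw [hy, add_pow_char, add_pow_char, hff₁, sum_pow_char, map_pow]
      congr 2
      refine Finset.sum_congr rfl fun j _ => ?_
      rw [FH2_mono_C, mul_pow, ← map_pow]
    have ho'p : ∀ n : ℕ, o' ^ n ∈ PS k := by
      intro n
      induction n with
      | zero => rw [pow_zero]; exact one_mem_PS
      | succ n ih => rw [pow_succ]; exact PS_mul ih (GE_mono (by norm_num) ho')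
    refine ⟨fun j => c j ^ p, h - r ^ p - f₁ ^ p, (Reg P₀).sub_mem hr ((Reg P₀).pow_mem hf₁ p),
      -(o' ^ p + b), Submodule.neg_mem _ (Submodule.add_mem _ (ho'p p) hb), ?_, ?_⟩
    · show ∑ j, LS.C (c j ^ p) * E j = _
      rw [map_sub, hyb, hyp]; ring
    · show D h = _
      rw [map_sub, hDf, FH2_Dpow p D f₁, sub_zero]
  -- injectivity
  have hinj1 : ∀ x ∈ G, x.1 = 0 → x = 0 := by
    intro x hx h0
    obtain ⟨f, hf, o', ho', h1, h2⟩ := (hGmem x).mp hx
    rw [h0] at h1
    simp only [Pi.zero_apply, map_zero, zero_mul, Finset.sum_const_zero] at h1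
    have h3 : ι f ∈ PS k := by
      rw [eq_neg_of_add_eq_zero_left h1.symm]
      exact Submodule.neg_mem _ ho'
    have h4 := hconst f hf h3
    exact Prod.ext h0 (by rw [h2, h4]; rfl)
  have hinj2 : ∀ x ∈ G, x.2 = 0 → x = 0 := by
    intro x hx h0
    obtain ⟨f, hf, o', ho', h1, h2⟩ := (hGmem x).mp hx
    have h3 : dd (ι f) = 0 := by
      rw [hFBu, ← h2, h0, map_zero, mul_zero]
    have h4 : x.1 = 0 := hCE p k g γ a hK x.1 (ι f) ((hA _).mpr ⟨f, hf, rfl⟩) o' ho' h1 h3
    exact Prod.ext h4 h0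
  -- dimensions
  let K₀ : Submodule k (Fin g → k) := LinearMap.ker (HW p γ a).mulVecLin
  let φ₁ : G →ₗ[k] K₀ := LinearMap.codRestrict K₀ ((LinearMap.fst k (Fin g → k) F).comp G.subtype)
    (fun x => by
      show (HW p γ a).mulVecLin (x : (Fin g → k) × F).1 = 0
      rw [Matrix.mulVecLin_apply]
      exact hfst x x.2)
  have hφ₁ : Function.Bijective φ₁ := by
    constructor
    · rw [injective_iff_map_eq_zero]
      intro x hx
      have h1 : (x : (Fin g → k) × F).1 = 0 := congrArg Subtype.val hx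
      exact Subtype.ext (hinj1 x x.2 h1)
    · rintro ⟨v, hv⟩
      have hv' : (HW p γ a).mulVec v = 0 := by
        rw [← Matrix.mulVecLin_apply]; exact hv
      obtain ⟨w, hw⟩ := hfst' v hv'
      exact ⟨⟨(v, w), hw⟩, rfl⟩
  let φ₂ : G →ₗ[k] W := LinearMap.codRestrict W ((LinearMap.snd k (Fin g → k) F).comp G.subtype)
    (fun x => hsnd x x.2)
  have hφ₂ : Function.Bijective φ₂ := by
    constructor
    · rw [injective_iff_map_eq_zero]
      intro x hx
      have h1 : (x : (Fin g → k) × F).2 = 0 := congrArg Subtype.val hx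
      exact Subtype.ext (hinj2 x x.2 h1)
    · rintro ⟨w, hw⟩
      obtain ⟨v, hv⟩ := hsnd' w hw
      exact ⟨⟨(v, w), hv⟩, rfl⟩
  have hdim1 : Module.finrank k K₀ = Module.finrank k G :=
    (LinearEquiv.ofBijective φ₁ hφ₁).finrank_eq.symm
  have hdim2 : Module.finrank k G = Module.finrank k W :=
    (LinearEquiv.ofBijective φ₂ hφ₂).finrank_eq
  have hrank : (HW p γ a).rank + Module.finrank k K₀ = g := by
    have h1 := LinearMap.finrank_range_add_finrank_ker (HW p γ a).mulVecLin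
    rw [Module.finrank_fin_fun] at h1
    exact h1
  -- the a-number
  have hnum : aNumber k F = Module.finrank k W := by
    unfold aNumber
    let e' : KaehlerDifferential k F ≃ₗ[k] F := e.restrictScalars k
    have h1 : (Submodule.span k {ω : KaehlerDifferential k F |
        (∀ P : Place k F, RegAt P ω) ∧ ∃ h : F, ω = KaehlerDifferential.D k F h}).map
          (e' : KaehlerDifferential k F →ₗ[k] F) = W := by
      rw [Submodule.map_span]
      apply le_antisymm
      · rw [Submodule.span_le]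
        rintro w ⟨ω, ⟨h1, h, rfl⟩, rfl⟩
        refine ⟨fun P => (he2 P _).mp (h1 P), h, ?_⟩
        exact he1 h
      · rintro w ⟨h1, h, rfl⟩
        apply Submodule.subset_span
        refine ⟨KaehlerDifferential.D k F h, ⟨fun P => ?_, h, rfl⟩, he1 h⟩
        rw [he2 P, he1 h]
        exact h1 P
    rw [← h1]
    exact (LinearEquiv.finrank_map_eq e' _).symm
  rw [hnum, ← hdim2, ← hdim1]
  omega

end

end AN
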