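import Pool.Agent.helper43.AN.PAcomplete

namespace AN

open scoped Classical
open MvPowerSeries (constantCoeff coeff)

noncomputable section

theorem PA_prime_factor {A : Type} [CommRing A] [IsDomain A] [UniqueFactorizationMonoid A]
    (Q : Ideal A) [Q.IsPrime] (F : A) : F ∈ Q → F ≠ 0 → ∃ q, Prime q ∧ q ∣ F ∧ q ∈ Q := by
  refine UniqueFactorizationMonoid.induction_on_prime F ?_ ?_ ?_
  · intro _ h; exact absurd rfl h
  · intro x hx hxQ _
    exact absurd (Ideal.eq_top_of_isUnit_mem _ hxQ hx) (Ideal.IsPrime.ne_top inferInstance)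
  · intro a p ha hp ih hpa _
    rcases Ideal.IsPrime.mem_or_mem (I := Q) inferInstance hpa with h | h
    · exact ⟨p, hp, dvd_mul_right p a, h⟩
    · obtain ⟨q, h1, h2, h3⟩ := ih h ha
      exact ⟨q, h1, h2.mul_left p, h3⟩

theorem PA_dist {A : Type} [CommRing A] [IsDomain A] [IsLocalRing A] (F q : Polynomial A)
    (hF : F.IsDistinguishedAt (IsLocalRing.maximalIdeal A)) (hq : q.Monic) (h : q ∣ F) :
    q.IsDistinguishedAt (IsLocalRing.maximalIdeal A) := by
  have h1 : q.map (IsLocalRing.residue A) ∣ (Polynomial.X : Polynomial (IsLocalRing.ResidueField A)) ^ F.natDegree := by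
    have h2 := hF.map_eq_X_pow
    have h3 := Polynomial.map_dvd (IsLocalRing.residue A) h
    exact h3.trans (dvd_of_eq h2)
  obtain ⟨i, -, hi⟩ := (dvd_prime_pow Polynomial.prime_X _).mp h1
  have h2 : q.map (IsLocalRing.residue A) = Polynomial.X ^ i :=
    Polynomial.eq_of_monic_of_associated (hq.map _) (Polynomial.monic_X_pow i) hi
  have h3 : i = q.natDegree := by
    rw [← hq.natDegree_map (IsLocalRing.residue A), h2, Polynomial.natDegree_X_pow]
  refine ⟨⟨fun {m} hm => ?_⟩, hq⟩
  have h4 : (q.map (IsLocalRing.residue A)).coeff m = 0 := by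
    rw [h2, Polynomial.coeff_X_pow, if_neg (by omega)]
  rw [Polynomial.coeff_map] at h4
  exact (IsLocalRing.residue_eq_zero_iff _).mp h4

theorem PA (hPB : PB_stmt) : PA_stmt := by
  intro k _ _ n
  induction n with
  | zero =>
    exact (MvPowerSeries.isEmptyEquiv (Fin 0) k).symm.toMulEquiv.uniqueFactorizationMonoid inferInstance
  | succ n ih =>
    have ih' : UniqueFactorizationMonoid (BB k n) := ih
    have hdn : IsDomain (BB k n) := NoZeroDivisors.to_isDomain _
    have hdn1 : IsDomain (BB k (n + 1)) := NoZeroDivisors.to_isDomain _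
    refine UniqueFactorizationMonoid.iff_exists_prime_mem_of_isPrime.mpr fun P hP0 hP => ?_
    obtain ⟨f, hfP, hf0⟩ := Submodule.exists_mem_ne_zero_of_ne_bot hP0
    obtain ⟨σ, hσ⟩ := hPB k n f hf0
    let e : BB k (n+1) ≃+* PowerSeries (BB k n) :=
      σ.toRingEquiv.trans (MvPowerSeries.finSuccEquiv k n).toRingEquiv
    let P' : Ideal (PowerSeries (BB k n)) := P.comap (e.symm : PowerSeries (BB k n) →+* BB k (n+1))
    have hP'mem : ∀ x, x ∈ P' ↔ e.symm x ∈ P := fun x => Iff.rfl
    have hP' : P'.IsPrime := Ideal.comap_isPrime _ _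
    have hg : (e f).map (IsLocalRing.residue (BB k n)) ≠ 0 := by
      intro h0
      apply hσ
      ext m
      have h1 := congrArg (PowerSeries.coeff m) h0
      rw [PowerSeries.coeff_map, map_zero, IsLocalRing.residue_eq_zero_iff, PA_mem_max] at h1
      rw [PowerSeries.coeff_map, map_zero]
      exact h1
    obtain ⟨F, h, hW⟩ := PowerSeries.exists_isWeierstrassFactorization hg
    let Q : Ideal (Polynomial (BB k n)) := P'.comap Polynomial.coeToPowerSeries.ringHom
    have hQ : Q.IsPrime := Ideal.comap_isPrime _ _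
    have hFQ : F ∈ Q := by
      show (F : PowerSeries (BB k n)) ∈ P'
      have h1 : (F : PowerSeries (BB k n)) * h ∈ P' := by
        rw [← hW.eq_mul, hP'mem, RingEquiv.symm_apply_apply]
        exact hfP
      rcases hP'.mem_or_mem h1 with h2 | h2
      · exact h2
      · exact absurd (Ideal.eq_top_of_isUnit_mem _ h2 hW.isUnit) hP'.ne_top
    have hFm : F.Monic := hW.isDistinguishedAt.monic
    obtain ⟨q, hq, hqF, hqQ⟩ := PA_prime_factor Q F hFQ hFm.ne_zero
    -- make `q` monic
    obtain ⟨r, hr⟩ := hqF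
    have hu : q.leadingCoeff * r.leadingCoeff = 1 := by
      rw [← Polynomial.leadingCoeff_mul, ← hr]
      exact hFm
    let q' : Polynomial (BB k n) := Polynomial.C r.leadingCoeff * q
    have hq'm : q'.Monic := by
      show q'.leadingCoeff = 1
      rw [Polynomial.leadingCoeff_mul, Polynomial.leadingCoeff_C, mul_comm]
      exact hu
    have hunit : IsUnit (Polynomial.C r.leadingCoeff) :=
      Polynomial.isUnit_C.mpr (IsUnit.of_mul_eq_one _ ((mul_comm _ _).trans hu))
    have hass : Associated q q' := by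
      obtain ⟨v, hv⟩ := hunit
      exact ⟨v, by rw [hv, mul_comm]⟩
    have hq' : Prime q' := hass.prime hq
    have hq'F : q' ∣ F := hass.symm.dvd.trans ⟨r, hr⟩
    have hq'Q : q' ∈ Q := Ideal.mul_mem_left _ _ hqQ
    have hd := PA_dist F q' hW.isDistinguishedAt hq'm hq'F
    have E := hd.algEquivQuotient
    have hdom1 : IsDomain (Polynomial (BB k n) ⧸ Ideal.span {q'}) := by
      rw [Ideal.Quotient.isDomain_iff_prime, Ideal.span_singleton_prime hq'.ne_zero]
      exact hq'
    have hdom2 : IsDomain (PowerSeries (BB k n) ⧸ Ideal.span {(q' : PowerSeries (BB k n))}) :=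
      E.symm.toMulEquiv.isDomain (Polynomial (BB k n) ⧸ Ideal.span {q'})
    rw [Ideal.Quotient.isDomain_iff_prime, Ideal.span_singleton_prime] at hdom2
    · refine ⟨e.symm (q' : PowerSeries (BB k n)), hq'Q, ?_⟩
      exact (MulEquiv.prime_iff e.symm.toMulEquiv).mpr hdom2
    · intro h0
      exact hq'.ne_zero (Polynomial.coe_injective _ (h0.trans Polynomial.coe_zero.symm))

end

end AN
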