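import Pool.Agent.helper48.AN.SpecP

namespace AN

open scoped Classical
open MvPowerSeries (constantCoeff coeff)

noncomputable section

/-- the maximal ideal of the power series ring -/
theorem PA_mem_max {k : Type} [Field k] {n : ℕ} (f : BB k n) :
    f ∈ IsLocalRing.maximalIdeal (BB k n) ↔ constantCoeff (σ := Fin n) (R := k) f = 0 := by
  rw [IsLocalRing.mem_maximalIdeal, mem_nonunits_iff, MvPowerSeries.isUnit_iff_constantCoeff,
    isUnit_iff_ne_zero, not_not]

/-- the series all of whose terms have degree at least `j` -/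
def PA_S (k : Type) [Field k] (n j : ℕ) : Ideal (BB k n) where
  carrier := {f | ∀ d : Fin n →₀ ℕ, d.degree < j → coeff d f = 0}
  zero_mem' := fun d _ => MvPowerSeries.coeff_zero d
  add_mem' := fun {f g} hf hg d hd => by rw [map_add, hf d hd, hg d hd, add_zero]
  smul_mem' := fun c f hf d hd => by
    rw [smul_eq_mul, MvPowerSeries.coeff_mul]
    refine Finset.sum_eq_zero fun x hx => ?_
    have hx := Finset.HasAntidiagonal.mem_antidiagonal.mp hx
    rw [hf x.2 (lt_of_le_of_lt ?_ hd), mul_zero]
    rw [← hx, map_add]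
    exact Nat.le_add_left _ _

theorem PA_mem_S {k : Type} [Field k] {n j : ℕ} {f : BB k n} :
    f ∈ PA_S k n j ↔ ∀ d : Fin n →₀ ℕ, d.degree < j → coeff d f = 0 := Iff.rfl

theorem PA_S_mul {k : Type} [Field k] {n : ℕ} (i j : ℕ) {f g : BB k n} (hf : f ∈ PA_S k n i)
    (hg : g ∈ PA_S k n j) : f * g ∈ PA_S k n (i + j) := by
  intro d hd
  rw [MvPowerSeries.coeff_mul]
  refine Finset.sum_eq_zero fun x hx => ?_
  have hx := Finset.HasAntidiagonal.mem_antidiagonal.mp hx
  by_cases h : x.1.degree < i
  · rw [hf _ h, zero_mul]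
  · rw [hg x.2, mul_zero]
    have : x.1.degree + x.2.degree = d.degree := by rw [← hx, map_add]
    omega

theorem PA_pow_le {k : Type} [Field k] {n : ℕ} (j : ℕ) :
    IsLocalRing.maximalIdeal (BB k n) ^ j ≤ PA_S k n j := by
  induction j with
  | zero => intro f _ d hd; exact absurd hd (Nat.not_lt_zero _)
  | succ j ih =>
    rw [pow_succ, Ideal.mul_le]
    intro f hf g hg
    refine PA_S_mul j 1 (ih hf) ?_
    intro d hd
    have h0 : d.degree = 0 := by omega
    rw [Finsupp.degree_eq_zero_iff] at h0
    rw [h0, MvPowerSeries.coeff_zero_eq_constantCoeff_apply]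
    exact (PA_mem_max g).mp hg

theorem PA_le_pow {k : Type} [Field k] {n : ℕ} (j : ℕ) :
    PA_S k n j ≤ IsLocalRing.maximalIdeal (BB k n) ^ j := by
  induction j with
  | zero => intro f _; rw [pow_zero, Ideal.one_eq_top]; trivial
  | succ j ih =>
    intro f hf
    -- `f = ∑ X_i g_i`
    let g : Fin n → BB k n := fun i => fun d : Fin n →₀ ℕ =>
      if (∀ i' < i, (d + Finsupp.single i 1 : Fin n →₀ ℕ) i' = 0) then
        coeff (d + Finsupp.single i 1) f else 0
    have hg : ∀ i (d : Fin n →₀ ℕ), coeff d (g i) =
        if (∀ i' < i, (d + Finsupp.single i 1 : Fin n →₀ ℕ) i' = 0) then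
          coeff (d + Finsupp.single i 1) f else 0 :=
      fun i d => rfl
    have hfg : f = ∑ i, MvPowerSeries.X i * g i := by
      ext d
      rw [map_sum]
      have h1 : ∀ i, coeff d (MvPowerSeries.X i * g i) =
          if d i ≠ 0 ∧ (∀ i' < i, d i' = 0) then coeff d f else 0 := by
        intro i
        rw [MvPowerSeries.X_def, MvPowerSeries.coeff_monomial_mul]
        by_cases h : Finsupp.single i 1 ≤ d
        · rw [if_pos h, one_mul, hg, tsub_add_cancel_of_le h]
          have h' : d i ≠ 0 := by
            have := h i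
            rw [Finsupp.single_eq_same] at this
            omega
          by_cases h2 : ∀ i' < i, d i' = 0
          · rw [if_pos h2, if_pos ⟨h', h2⟩]
          · rw [if_neg h2, if_neg (fun h3 => h2 h3.2)]
        · rw [if_neg h, if_neg]
          rintro ⟨h2, -⟩
          apply h
          intro i'
          by_cases h3 : i' = i
          · subst h3
            rw [Finsupp.single_eq_same]
            omega
          · rw [Finsupp.single_eq_of_ne h3]
            exact Nat.zero_le _
      rw [Finset.sum_congr rfl fun i _ => h1 i]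
      by_cases hd : d = 0
      · subst hd
        rw [hf 0 (by simp)]
        symm
        apply Finset.sum_eq_zero
        intro i _
        rw [if_neg]
        simp
      · have hex : ∃ i, d i ≠ 0 := by
          by_contra hc
          push Not at hc
          exact hd (Finsupp.ext hc)
        obtain ⟨i₀, hi₀, hmin⟩ : ∃ i₀, d i₀ ≠ 0 ∧ ∀ i' < i₀, d i' = 0 := by
          obtain ⟨i, hi⟩ := hex
          have := WellFounded.has_min (wellFounded_lt : WellFounded ((· < ·) : Fin n → Fin n → Prop))
            {i | d i ≠ 0} ⟨i, hi⟩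
          obtain ⟨m, hm, hm'⟩ := this
          exact ⟨m, hm, fun i' hi' => by
            by_contra hc
            exact hm' i' hc hi'⟩
        rw [Finset.sum_eq_single i₀]
        · rw [if_pos ⟨hi₀, hmin⟩]
        · intro b _ hb
          rw [if_neg]
          rintro ⟨hb1, hb2⟩
          rcases lt_trichotomy b i₀ with h | h | h
          · exact hb1 (hmin b h)
          · exact hb h
          · exact hi₀ (hb2 i₀ h)
        · intro h; exact absurd (Finset.mem_univ _) h
    rw [hfg]
    refine Ideal.sum_mem _ fun i _ => ?_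
    rw [pow_succ, mul_comm (MvPowerSeries.X i)]
    refine Ideal.mul_mem_mul (ih ?_) ?_
    · intro d hd
      rw [hg]
      split_ifs with h
      · apply hf
        rw [map_add, Finsupp.degree_single]
        omega
      · rfl
    · rw [PA_mem_max, MvPowerSeries.constantCoeff_X]

theorem PA_mem_pow {k : Type} [Field k] {n : ℕ} (j : ℕ) (f : BB k n) :
    f ∈ IsLocalRing.maximalIdeal (BB k n) ^ j ↔ ∀ d : Fin n →₀ ℕ, d.degree < j → coeff d f = 0 :=
  ⟨fun h => PA_pow_le j h, fun h => PA_le_pow j h⟩

instance PA_complete (k : Type) [Field k] (n : ℕ) :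
    IsAdicComplete (IsLocalRing.maximalIdeal (BB k n)) (BB k n) where
  haus' := by
    intro x hx
    ext d
    have h := hx (d.degree + 1)
    rw [SModEq.zero, smul_eq_mul, Ideal.mul_top, PA_mem_pow] at h
    rw [h d (by omega), map_zero]
  prec' := by
    intro f hf
    refine ⟨fun d => coeff d (f (d.degree + 1)), fun m => ?_⟩
    rw [SModEq.sub_mem, smul_eq_mul, Ideal.mul_top, PA_mem_pow]
    intro d hd
    have h := hf (m := d.degree + 1) (n := m) (by omega)
    rw [SModEq.sub_mem, smul_eq_mul, Ideal.mul_top, PA_mem_pow] at h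
    have h2 := h d (by omega)
    rw [map_sub, sub_eq_zero] at h2 ⊢
    exact h2.symm

end

end AN
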