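import Pool.Agent.helper48.AN.SpecZ

namespace AN

open scoped Classical
open Pool.Agent.helper53.AU

noncomputable section

theorem ZB1_least {K : Type} [Field K] (x : LS K) (hx : x ∉ PS K) :
    ∃ n : ℕ, 0 < n ∧ x ∈ GE K (-(n : ℤ)) ∧ cf x (-(n : ℤ)) ≠ 0 := by
  have hex : ∃ n : ℤ, n < 0 ∧ cf x n ≠ 0 := by
    by_contra h'
    push Not at h'
    exact hx fun n hn => h' n hn
  obtain ⟨N, hN⟩ := exists_lb x
  obtain ⟨n, hn0, hn⟩ := hex
  obtain ⟨m, ⟨hm0, hm⟩, hmin⟩ := Int.exists_least_of_bdd (P := fun n : ℤ => n < 0 ∧ cf x n ≠ 0)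
    ⟨N, fun z hz => by
      by_contra hlt
      exact hz.2 (hN z (by omega))⟩ ⟨n, hn0, hn⟩
  refine ⟨m.natAbs, by omega, ?_, ?_⟩
  · intro k hk
    by_contra hk'
    have := hmin k ⟨by omega, hk'⟩
    omega
  · have : -(m.natAbs : ℤ) = m := by omega
    rw [this]; exact hm

theorem ZB1_two {k F : Type} [Field k] [IsAlgClosed k] [Field F] [Algebra k F] (hFF : IsFF k F)
    (P₀ : Place k F) (f : F) (n : ℕ) (hn : 0 < n) (hP₀ : P₀.ord f = -(n : ℤ))
    (htr : Transcendental k f) (hdeg : degx k f ≤ n) (P : Place k F) (hP : P ≠ P₀) :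
    P.Ge 0 f := by
  have hf0 : f ≠ 0 := by
    intro h
    rw [h, P₀.ord_zero] at hP₀
    omega
  by_contra hcon
  have hlt : P.ord f < 0 := by
    by_contra h
    exact hcon (Or.inr (by omega))
  have hfin := aQV4 k F hFF f hf0
  have hsum := (aQZ3 k F hFF f htr).2
  have hsub : (Function.support fun P : Place k F => max (-P.ord f) 0) ⊆ ↑hfin.toFinset := by
    intro Q hQ
    rw [Set.Finite.coe_toFinset]
    intro h
    apply hQ
    show max (-Q.ord f) 0 = 0
    have h' : Q.ord f = 0 := h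
    rw [h']; simp
  rw [finsum_eq_sum_of_support_subset _ hsub] at hsum
  have hpair : ({P, P₀} : Finset (Place k F)) ⊆ hfin.toFinset := by
    intro Q hQ
    rw [Finset.mem_insert, Finset.mem_singleton] at hQ
    rw [Set.Finite.mem_toFinset]
    rcases hQ with rfl | rfl
    · show Q.ord f ≠ 0
      omega
    · show Q.ord f ≠ 0
      omega
  have h1 : ∑ Q ∈ ({P, P₀} : Finset (Place k F)), max (-Q.ord f) 0 ≤
      ∑ Q ∈ hfin.toFinset, max (-Q.ord f) 0 :=
    Finset.sum_le_sum_of_subset_of_nonneg hpair fun Q _ _ => le_max_right _ _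
  rw [Finset.sum_pair hP, hsum] at h1
  have h2 : -P.ord f ≤ max (-P.ord f) 0 := le_max_left _ _
  have h3 : -P₀.ord f ≤ max (-P₀.ord f) 0 := le_max_left _ _
  have h4 : (degx k f : ℤ) ≤ n := by exact_mod_cast hdeg
  omega

theorem ZB1 (hKB : KB_stmt) (hKF : KF_stmt) (hZA2 : ZA2_stmt) (hFC : FC_stmt) : ZB1_stmt := by
  intro p hp K _ _ _ g γ a hK P₀ hι
  obtain ⟨-, -, kb2, -, -, -, -, -⟩ := hKB K g γ a hK
  have hinj : Function.Injective (algebraMap (EF γ a) (LS K)) := (algebraMap (EF γ a) (LS K)).injective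
  have hsub : ∀ x : LS K, x ∈ AA γ a → ∃ f ∈ Reg P₀, x = algebraMap (EF γ a) (LS K) f := by
    intro x hx
    have hxE : x ∈ EF γ a := IntermediateField.subset_adjoin K _ hx
    refine ⟨⟨x, hxE⟩, ?_, rfl⟩
    by_cases hxPS : x ∈ PS K
    · obtain ⟨c, hc⟩ := kb2 x hx hxPS
      have h1 : (⟨x, hxE⟩ : EF γ a) = algebraMap K (EF γ a) c := by
        apply hinj
        rw [hι.const]
        exact hc
      rw [h1]
      exact (Reg P₀).algebraMap_mem c
    · obtain ⟨n, hn, h1, h2⟩ := ZB1_least x hxPS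
      obtain ⟨htr, hfd, hdeg⟩ := hZA2 K g γ a hK ⟨x, hxE⟩ n hn hx h1 h2
      have hFF : IsFF K (EF γ a) := ⟨_, htr, hfd⟩
      have hf0 : (⟨x, hxE⟩ : EF γ a) ≠ 0 := by
        intro h
        have : x = 0 := congrArg Subtype.val h
        rw [this, cf_zero] at h2
        exact h2 rfl
      have ho : P₀.ord (⟨x, hxE⟩ : EF γ a) = -(n : ℤ) := by
        have h3 := hι.mem _ hf0
        have h4 := hι.ne _ hf0
        have h5 : algebraMap (EF γ a) (LS K) ⟨x, hxE⟩ = x := rfl
        rw [h5] at h3 h4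
        rcases lt_trichotomy (P₀.ord (⟨x, hxE⟩ : EF γ a)) (-(n : ℤ)) with h | h | h
        · exact absurd (h1 _ h) h4
        · exact h
        · exact absurd (h3 _ h) h2
      intro P hP
      exact ZB1_two hFF P₀ _ n hn ho htr hdeg P hP
  intro x
  refine ⟨hsub x, ?_⟩
  rintro ⟨f, hf, rfl⟩
  -- the function field
  by_cases htriv : ∀ x ∈ AA γ a, x ∈ PS K
  · -- impossible, but the residue theorem needs `IsFF` only
    have hFF : IsFF K (EF γ a) := by
      exfalso
      -- a large non-gap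
      obtain ⟨r, hr⟩ : ∃ r : ℕ, 0 < r ∧ ¬ Gp γ r := by
        obtain ⟨r, hr⟩ := Infinite.exists_notMem_finset (insert 0 (Finset.univ.image γ))
        rw [Finset.mem_insert, Finset.mem_image] at hr
        push Not at hr
        refine ⟨r, Nat.pos_of_ne_zero hr.1, ?_⟩
        rintro ⟨i, hi⟩
        exact hr.2 i (Finset.mem_univ _) hi
      have h1 := htriv (a r) (Submodule.subset_span ⟨r, hr.2, rfl⟩) (-(r : ℤ)) (by omega)
      rw [hK.coef r r hr.2 hr.2, if_pos rfl] at h1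
      exact one_ne_zero h1
    refine hKF K g γ a hK _ fun η hη => ?_
    unfold OmA at hη
    refine Submodule.span_induction (p := fun η _ => res (algebraMap (EF γ a) (LS K) f * η) = 0)
      ?_ ?_ ?_ ?_ hη
    · rintro y ⟨f1, hf1, h, hh, rfl⟩
      obtain ⟨f1', hf1R, rfl⟩ := hsub f1 hf1
      obtain ⟨h', hhR, rfl⟩ := hsub h hh
      rw [← mul_assoc, ← map_mul]
      exact hFC p K (EF γ a) hFF P₀ _ hι _ ((Reg P₀).mul_mem hf hf1R) _ hhR
    · rw [mul_zero]; rfl
    · intro y z _ _ hy hz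
      rw [mul_add, res_add, hy, hz, add_zero]
    · intro c y _ hy
      rw [mul_smul_comm, res_smul, hy, mul_zero]
  · push Not at htriv
    obtain ⟨x, hx, hxPS⟩ := htriv
    have hxE : x ∈ EF γ a := IntermediateField.subset_adjoin K _ hx
    obtain ⟨n, hn, h1, h2⟩ := ZB1_least x hxPS
    obtain ⟨htr, hfd, hdeg⟩ := hZA2 K g γ a hK ⟨x, hxE⟩ n hn hx h1 h2
    have hFF : IsFF K (EF γ a) := ⟨_, htr, hfd⟩
    refine hKF K g γ a hK _ fun η hη => ?_
    unfold OmA at hη
    refine Submodule.span_induction (p := fun η _ => res (algebraMap (EF γ a) (LS K) f * η) = 0)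
      ?_ ?_ ?_ ?_ hη
    · rintro y ⟨f1, hf1, h, hh, rfl⟩
      obtain ⟨f1', hf1R, rfl⟩ := hsub f1 hf1
      obtain ⟨h', hhR, rfl⟩ := hsub h hh
      rw [← mul_assoc, ← map_mul]
      exact hFC p K (EF γ a) hFF P₀ _ hι _ ((Reg P₀).mul_mem hf hf1R) _ hhR
    · rw [mul_zero]; rfl
    · intro y z _ _ hy hz
      rw [mul_add, res_add, hy, hz, add_zero]
    · intro c y _ hy
      rw [mul_smul_comm, res_smul, hy, mul_zero]

end

end AN
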